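import Pool.Agent.Helper5.SX.All

/-!
# Strong chromatic number at most `c Δ + C` for every graph and every `c > (3 + sqrt 5) / 2`

Method: a partial strong colouring with the maximum number of coloured vertices and an alternating
structure of stars (one colour `al`) of minimal signature; rotations of the colours inside a block;
terminal strong components of the recolouring digraphs; two double counts of the dominated vertices.
-/

set_option autoImplicit false

namespace Pool.Agent.Results.MP_7b75b3_co.AllGraphs

open SC

theorem result (c : ℝ) (hc : (3 + Real.sqrt 5) / 2 < c) :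
    ∃ C : ℝ, 0 < C ∧ ∀ (V : Type) [Fintype V] (G : SimpleGraph V) (Δ : ℕ),
      (∀ v, (G.neighborSet v).ncard ≤ Δ) →
      (∀ k : ℕ, c * Δ + C ≤ k → StronglyColourable G k) ∧ (schi G : ℝ) ≤ c * Δ + C :=
  SX.main c hc

end Pool.Agent.Results.MP_7b75b3_co.AllGraphs
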