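import Pool.Agent.Helper41.F2.M_IT
import Pool.Agent.Helper73.F2.M_EX
import Pool.Agent.Helper39.F2.M_XCH
import Pool.Agent.Helper19.F2.M_UNI
import Pool.Agent.Helper36.F2.M_CNT
import Pool.Agent.Helper73.F2.M_PTH
import Pool.Agent.Helper36.F2.M_STP
import Pool.Agent.Helper36.F2.M_PSH
import Pool.Agent.Helper99.F2.M_MAX
import Pool.Agent.Helper73.F2.M_ATT
import Pool.Agent.Helper38.F2.M_LEF
import Pool.Agent.Helper36.F2.M_FSG
import Pool.Agent.Helper73.F2.M_FSC
import Pool.Agent.Helper73.F2.M_MCO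
import Pool.Agent.Helper73.F2.M_EXT
import Pool.Agent.Helper81.F2.M_RD1
import Pool.Agent.Helper47.F2.M_RD2
import Pool.Agent.Helper73.F2.M_SUB
import Pool.Agent.Helper94.F2.M_CF4
import Pool.Agent.Helper73.F2.M_FIN
import Pool.Agent.Helper73.F2.Main

/-!
# Strong chromatic number of graphs of maximum degree two: `f(2) = 4`

Every finite graph in which every vertex has at most two neighbours is strongly `4`-colourable.
The cycle with four vertices is not strongly `k`-colourable for `k = 1, 2, 3`, so the largest strong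
chromatic number of a graph of maximum degree two is exactly four.
-/

namespace Pool.Agent.Results.MP_7b75b3_co.DeltaTwo

open SC

/-- The numbers `schi G`, where `G` is a finite graph of maximum degree exactly `d`. -/
def Values (d : ℕ) : Set ℕ :=
  {n | ∃ (V : Type) (_ : Fintype V) (G : SimpleGraph V),
    (∀ v, (G.neighborSet v).ncard ≤ d) ∧ (∃ v, (G.neighborSet v).ncard = d) ∧ schi G = n}

theorem result :
    (∀ (V : Type) [Fintype V] (G : SimpleGraph V), (∀ v, (G.neighborSet v).ncard ≤ 2) →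
      StronglyColourable G 4 ∧ schi G ≤ 4) ∧
    ((∀ v, ((SimpleGraph.cycleGraph 4).neighborSet v).ncard = 2) ∧
      schi (SimpleGraph.cycleGraph 4) = 4) ∧
    IsGreatest (Values 2) 4 := by
  have hall : Pool.Agent.Helper73.F2.All4 := 
    Pool.Agent.Helper73.F2.hFIN
      Pool.Agent.Helper41.F2.hIT
      Pool.Agent.Helper73.F2.hEX
      Pool.Agent.Helper39.F2.hXCH
      Pool.Agent.Helper19.F2.hUNI
      Pool.Agent.Helper36.F2.hCNT
      Pool.Agent.Helper73.F2.hPTH
      Pool.Agent.Helper36.F2.hSTP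
      Pool.Agent.Helper36.F2.hPSH
      Pool.Agent.Helper99.F2.hMAX
      Pool.Agent.Helper73.F2.hATT
      Pool.Agent.Helper73.F2.hHDG
      Pool.Agent.Helper38.F2.hLEF
      Pool.Agent.Helper36.F2.hFSG
      Pool.Agent.Helper73.F2.hFSC
      Pool.Agent.Helper73.F2.hMCO
      Pool.Agent.Helper73.F2.hEXT
      Pool.Agent.Helper81.F2.hRD1
      Pool.Agent.Helper47.F2.hRD2
      Pool.Agent.Helper73.F2.hSUB
  have hC : F2.StCF4 := Pool.Agent.Helper94.F2.hCF4
  have h1 : ∀ (V : Type) [Fintype V] (G : SimpleGraph V), (∀ v, (G.neighborSet v).ncard ≤ 2) →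
      StronglyColourable G 4 ∧ schi G ≤ 4 := by
    intro V _ G hG
    have h := Pool.Agent.Helper73.F2.strong4 hall G hG
    exact ⟨h, schi_le G 4 (by norm_num) h⟩
  have h2 := Pool.Agent.Helper73.F2.c4_schi hall hC
  refine ⟨h1, ⟨Pool.Agent.Helper73.F2.c4_deg, h2⟩, ?_, ?_⟩
  · exact ⟨Fin 4, inferInstance, SimpleGraph.cycleGraph 4,
      fun v => (Pool.Agent.Helper73.F2.c4_deg v).le, ⟨0, Pool.Agent.Helper73.F2.c4_deg 0⟩, h2⟩
  · rintro n ⟨V, _, G, hG, _, rfl⟩
    exact (h1 V G hG).2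

end Pool.Agent.Results.MP_7b75b3_co.DeltaTwo
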