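import Pool.Agent.Helper95.SC.Main3

/-!
# Strong chromatic number at most six for graphs of maximum degree three

If the edges of `G` are those of `F` and `M`, where every vertex has at most two neighbours in `F`
and at most one in `M`, and every cycle of `F` contains both ends of an edge of `M`, then `G` is
strongly `6`-colourable.  This covers all Hamiltonian graphs of maximum degree three, and there the
bound is attained by the complete bipartite graph with sides of size three.
-/

namespace Pool.Agent.Results.MP_7b75b3_co.StrongSix

open SC

theorem result :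
    (∀ (V : Type) [Fintype V] (G F M : SimpleGraph V), G = F ⊔ M →
      (∀ v, (F.neighborSet v).ncard ≤ 2) → (∀ v, (M.neighborSet v).ncard ≤ 1) →
      CycleChord F M → StronglyColourable G 6 ∧ schi G ≤ 6) ∧
    (∀ (V : Type) [Fintype V] [DecidableEq V] (G : SimpleGraph V), G.IsHamiltonian →
      (∀ v, (G.neighborSet v).ncard ≤ 3) → (∃ v, (G.neighborSet v).ncard = 3) →
      StronglyColourable G 6 ∧ schi G ≤ 6) ∧
    ((completeBipartiteGraph (Fin 3) (Fin 3)).IsHamiltonian ∧
      (∀ v, ((completeBipartiteGraph (Fin 3) (Fin 3)).neighborSet v).ncard = 3) ∧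
      schi (completeBipartiteGraph (Fin 3) (Fin 3)) = 6) := by
  refine ⟨?_, ?_, k33_ham, k33_deg, k33_schi⟩
  · intro V _ G F M hG hF hM hc
    have h : StronglyColourable G 6 := by
      refine partA G F M ?_ hF hM hc
      intro u v huv
      rw [hG] at huv
      exact Or.symm (show F.Adj u v ∨ M.Adj u v from huv)
    exact ⟨h, schi_le G 6 (by norm_num) h⟩
  · intro V _ _ G hG hd hx
    have h : StronglyColourable G 6 := partB G hG hd hx
    exact ⟨h, schi_le G 6 (by norm_num) h⟩

end Pool.Agent.Results.MP_7b75b3_co.StrongSix
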