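import Pool.Agent.Helper88.SCN.Graph

/-!
# Strong chromatic number at most `(2 + ε) Δ` when `Δ` is at least `C log² n`

For every `ε > 0` there is `C` such that every graph on `n` vertices with at most `Δ` neighbours
at every vertex is strongly `k`-colourable for every `k ≥ max ((2 + ε) Δ) (C log² n)`.
-/

set_option autoImplicit false

namespace Pool.Agent.Results.MP_7b75b3_co.TwoPlusEps

open SC

theorem result (ε : ℝ) (hε : 0 < ε) :
    ∃ C : ℝ, 0 < C ∧ ∀ (V : Type) [Fintype V] (G : SimpleGraph V) (Δ : ℕ),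
      (∀ v, (G.neighborSet v).ncard ≤ Δ) →
      (∀ k : ℕ, 0 < k → (2 + ε) * Δ ≤ k → C * Real.log (Fintype.card V) ^ 2 ≤ k →
        StronglyColourable G k) ∧
      (schi G : ℝ) ≤ max ((2 + ε) * Δ) (C * Real.log (Fintype.card V) ^ 2) + 1 := by
  obtain ⟨C, hC, h⟩ := Pool.Agent.Helper88.SCN.strong_main ε hε
  refine ⟨C, hC, ?_⟩
  intro V _ G Δ hΔ
  have h1 : ∀ k : ℕ, 0 < k → (2 + ε) * Δ ≤ k → C * Real.log (Fintype.card V) ^ 2 ≤ k →
      StronglyColourable G k := fun k hk h2 h3 => h V G Δ k hk hΔ h2 h3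
  refine ⟨h1, ?_⟩
  set M : ℝ := max ((2 + ε) * Δ) (C * Real.log (Fintype.card V) ^ 2) with hM
  have hM0 : 0 ≤ M := le_max_of_le_left (by positivity)
  have h2 : schi G ≤ max ⌈M⌉₊ 1 := by
    apply schi_le G _ (lt_of_lt_of_le one_pos (le_max_right _ _))
    apply h1
    · exact lt_of_lt_of_le one_pos (le_max_right _ _)
    · calc (2 + ε) * (Δ : ℝ) ≤ M := le_max_left _ _
        _ ≤ (⌈M⌉₊ : ℝ) := Nat.le_ceil M
        _ ≤ ((max ⌈M⌉₊ 1 : ℕ) : ℝ) := by exact_mod_cast le_max_left _ _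
    · calc C * Real.log (Fintype.card V) ^ 2 ≤ M := le_max_right _ _
        _ ≤ (⌈M⌉₊ : ℝ) := Nat.le_ceil M
        _ ≤ ((max ⌈M⌉₊ 1 : ℕ) : ℝ) := by exact_mod_cast le_max_left _ _
  calc (schi G : ℝ) ≤ ((max ⌈M⌉₊ 1 : ℕ) : ℝ) := by exact_mod_cast h2
    _ ≤ M + 1 := by
      rw [Nat.cast_max]
      apply max_le
      · exact (Nat.ceil_lt_add_one hM0).le
      · push_cast
        linarith

end Pool.Agent.Results.MP_7b75b3_co.TwoPlusEps
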